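import Mathlib

open Filter Topology Finset

namespace Pool.Agent.H.MP_8144ad_nt

theorem stage (F W : ℕ → ℝ) (N : ℕ → ℕ) (D : ℕ → ℝ) (hN : StrictMono N) (hW : Monotone W)
    (hD : ∀ i, 1 ≤ D i)
    (h : ∀ ε : ℝ, 0 < ε → ∀ᶠ i in atTop,
      (∀ n, N i ≤ n → n ≤ N (i + 1) → |F n - F (N i)| ≤ ε * (W n - W (N i)) + D i) ∧
        D (i + 1) ≤ ε * (W (N (i + 1)) - W (N i))) :
    Tendsto W atTop atTop ∧ Tendsto (fun n => F n / W n) atTop (𝓝 0) := by
  have hWt : Tendsto W atTop atTop := by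
    obtain ⟨i0, hi0⟩ := eventually_atTop.1 (h 1 one_pos)
    have h1 : ∀ j : ℕ, W (N i0) + j ≤ W (N (i0 + j)) := by
      intro j
      induction j with
      | zero => simp
      | succ j ih =>
        have := (hi0 (i0 + j) (by omega)).2
        have := hD (i0 + j + 1)
        rw [← add_assoc]
        push_cast
        linarith
    refine tendsto_atTop_atTop_of_monotone hW fun b => ?_
    obtain ⟨j, hj⟩ := exists_nat_ge (b - W (N i0))
    exact ⟨N (i0 + j), by linarith [h1 j]⟩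
  refine ⟨hWt, ?_⟩
  rw [Metric.tendsto_nhds]
  intro ε hε
  obtain ⟨i0, hi0⟩ := eventually_atTop.1 (h (ε / 4) (by positivity))
  obtain ⟨C, hC⟩ : ∃ C, C = |F (N i0)| + D i0 - ε / 2 * W (N i0) := ⟨_, rfl⟩
  have h1 : ∀ j : ℕ, |F (N (i0 + j))| + D (i0 + j) ≤ C + ε / 2 * W (N (i0 + j)) := by
    intro j
    induction j with
    | zero => simp [hC]
    | succ j ih =>
      obtain ⟨a1, a2⟩ := hi0 (i0 + j) (by omega)
      have a3 := a1 (N (i0 + j + 1)) (hN.monotone (by omega)) le_rfl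
      have a4 := abs_sub_abs_le_abs_sub (F (N (i0 + j + 1))) (F (N (i0 + j)))
      rw [← add_assoc]
      linarith
  have h2 : ∀ n, N i0 ≤ n → |F n| ≤ C + ε / 2 * W n := by
    intro n hn
    have hex : ∃ j, n < N (i0 + j + 1) := ⟨n, lt_of_lt_of_le (by omega) (hN.le_apply)⟩
    classical
    obtain ⟨j, hj⟩ : ∃ j, j = Nat.find hex := ⟨_, rfl⟩
    have b1 : n < N (i0 + j + 1) := hj ▸ Nat.find_spec hex
    have b2 : N (i0 + j) ≤ n := by
      cases j with
      | zero => exact hn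
      | succ j => exact not_lt.1 (Nat.find_min hex (m := j) (by omega))
    have a3 := (hi0 (i0 + j) (by omega)).1 n b2 b1.le
    have a4 := abs_sub_abs_le_abs_sub (F n) (F (N (i0 + j)))
    have a5 := hW b2
    have a6 := h1 j
    nlinarith
  filter_upwards [eventually_ge_atTop (N i0), hWt.eventually_gt_atTop 0,
    hWt.eventually_gt_atTop (2 * C / ε)] with n hn h0 h3
  rw [Real.dist_eq, sub_zero, abs_div, abs_of_pos h0, div_lt_iff₀ h0]
  rw [div_lt_iff₀ hε] at h3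
  have := h2 n hn
  nlinarith

theorem cnt (a b M v : ℕ) (hab : a ≤ b) (hv : v < M) :
    |(#{x ∈ Ico a b | x % M = v} : ℝ) - ((b : ℝ) - a) / M| ≤ 1 := by
  have hM : 0 < M := by omega
  have h := Nat.Ico_filter_modEq_card a b hM v
  have e : ({x ∈ Ico a b | x % M = v} : Finset ℕ) = {x ∈ Ico a b | x ≡ v [MOD M]} := by
    refine filter_congr fun x _ => ?_
    rw [Nat.ModEq, Nat.mod_eq_of_lt hv]
  rw [e]
  have hM' : (0 : ℚ) < M := by exact_mod_cast hM
  have hab' : (a : ℚ) ≤ b := by exact_mod_cast hab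
  have m1 : ⌈((a : ℚ) - v) / M⌉ ≤ ⌈((b : ℚ) - v) / M⌉ := Int.ceil_mono (by gcongr)
  rw [max_eq_left (by linarith)] at h
  have h' : (#{x ∈ Ico a b | x ≡ v [MOD M]} : ℚ)
      = (⌈((b : ℚ) - v) / M⌉ : ℚ) - ⌈((a : ℚ) - v) / M⌉ := by exact_mod_cast h
  have : |(#{x ∈ Ico a b | x ≡ v [MOD M]} : ℚ) - ((b : ℚ) - a) / M| ≤ 1 := by
    rw [h', abs_le]
    have e2 : ((b : ℚ) - a) / M = ((b : ℚ) - v) / M - ((a : ℚ) - v) / M := by ring
    rw [e2]
    constructor <;> linarith [Int.le_ceil (((b : ℚ) - v) / M), Int.ceil_lt_add_one (((b : ℚ) - v) / M),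
      Int.le_ceil (((a : ℚ) - v) / M), Int.ceil_lt_add_one (((a : ℚ) - v) / M)]
  have h2 := (Rat.cast_le (K := ℝ)).2 this
  push_cast at h2
  exact h2

theorem cnt2 (a b M T : ℕ) (hab : a ≤ b) (hT : T ≤ M) :
    (#{x ∈ Ico a b | x % M < T} : ℝ) ≤ T * (((b : ℝ) - a) / M + 1) := by
  have e : ({x ∈ Ico a b | x % M < T} : Finset ℕ)
      = (range T).biUnion fun v => {x ∈ Ico a b | x % M = v} := by
    ext x
    simp [and_comm]
  rw [e]
  calc ((#((range T).biUnion fun v => {x ∈ Ico a b | x % M = v}) : ℕ) : ℝ)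
      ≤ ((∑ v ∈ range T, #{x ∈ Ico a b | x % M = v} : ℕ) : ℝ) := by
        exact_mod_cast card_biUnion_le
    _ ≤ ∑ v ∈ range T, (((b : ℝ) - a) / M + 1) := by
        push_cast
        refine sum_le_sum fun v hv => ?_
        have := abs_le.1 (cnt a b M v hab (by have := mem_range.1 hv; omega))
        linarith [this.2]
    _ = _ := by simp [mul_add]

theorem expan (q E : ℕ → ℕ) (h : ∀ n, E n + 2 ≤ q n) :
    ∃ x : ℝ, HasSum (fun n => (E (n + 1) : ℝ) / ∏ i ∈ range (n + 1), (q (i + 1) : ℝ))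
      (x - ⌊x⌋) := by
  have hq : ∀ n, (E n : ℝ) + 2 ≤ q n := fun n => by exact_mod_cast h n
  have hq0 : ∀ n, (0 : ℝ) < q n := fun n => by
    linarith [hq n, Nat.cast_nonneg (α := ℝ) (E n)]
  have hP : ∀ n, (0 : ℝ) < ∏ i ∈ range n, (q (i + 1) : ℝ) := fun n => prod_pos fun i _ => hq0 _
  have h1 : ∀ n, ∑ j ∈ range (n + 1), (E (j + 1) : ℝ) / ∏ i ∈ range (j + 1), (q (i + 1) : ℝ)
      ≤ 1 - 1 / (q 1 : ℝ) - 1 / ∏ i ∈ range (n + 1), (q (i + 1) : ℝ) := by
    intro n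
    induction n with
    | zero =>
      have := hq 1
      have := hq0 1
      simp only [zero_add, range_one, sum_singleton, prod_singleton]
      rw [div_le_iff₀ this]
      field_simp
      linarith
    | succ n ih =>
      rw [sum_range_succ, prod_range_succ _ (n + 1)]
      have a1 := hq (n + 1 + 1)
      have a2 := hq0 (n + 1 + 1)
      have a3 := hP (n + 1)
      generalize ∏ i ∈ range (n + 1), (q (i + 1) : ℝ) = P at *
      have : (E (n + 1 + 1) : ℝ) / (P * q (n + 1 + 1)) ≤ 1 / P - 1 / (P * q (n + 1 + 1)) := by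
        rw [div_le_iff₀ (by positivity)]
        field_simp
        linarith
      linarith
  have h2 : ∀ n, ∑ j ∈ range n, (E (j + 1) : ℝ) / ∏ i ∈ range (j + 1), (q (i + 1) : ℝ)
      ≤ 1 - 1 / (q 1 : ℝ) := by
    intro n
    cases n with
    | zero =>
      have := hq 1
      have : 1 / (q 1 : ℝ) ≤ 1 := by
        rw [div_le_one (hq0 1)]; linarith [Nat.cast_nonneg (α := ℝ) (E 1)]
      simp only [range_zero, sum_empty]; linarith
    | succ n =>
      have := h1 n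
      have : 0 < 1 / ∏ i ∈ range (n + 1), (q (i + 1) : ℝ) := one_div_pos.2 (hP _)
      linarith
  have hnn : ∀ j, 0 ≤ (E (j + 1) : ℝ) / ∏ i ∈ range (j + 1), (q (i + 1) : ℝ) :=
    fun j => div_nonneg (Nat.cast_nonneg _) (hP _).le
  have hs := summable_of_sum_range_le hnn h2
  have h3 := Real.tsum_le_of_sum_range_le hnn h2
  refine ⟨∑' j, (E (j + 1) : ℝ) / ∏ i ∈ range (j + 1), (q (i + 1) : ℝ), ?_⟩
  have : ⌊∑' j, (E (j + 1) : ℝ) / ∏ i ∈ range (j + 1), (q (i + 1) : ℝ)⌋ = 0 := by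
    rw [Int.floor_eq_zero_iff]
    exact ⟨tsum_nonneg hnn, by linarith [one_div_pos.2 (hq0 1)]⟩
  rw [this]
  simpa using hs.hasSum

end Pool.Agent.H.MP_8144ad_nt
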