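import Mathlib
import Pool.Agent.H.MP_8144ad_nt.A

open Filter Topology Finset

namespace Pool.Agent.H.MP_8144ad_nt

def blk (t : ℕ) : List ℕ := Denumerable.ofNat (List ℕ) t

def KK (i : ℕ) : ℕ := (i + 1 + ∑ t ∈ range (i + 1), (blk t).length).factorial

def cc (i : ℕ) : ℕ := (i + 1) ^ 2 + 3 + ∑ t ∈ range (i + 1), (blk t).sum

def bb (i : ℕ) : ℕ := cc i * KK i

def NN : ℕ → ℕ
  | 0 => 0
  | i + 1 => KK (i + 1) * (NN i + bb i ^ i * ((i + 1) * ((i + 2) * KK (i + 1) + 1)))

theorem KK_pos (i : ℕ) : 0 < KK i := Nat.factorial_pos _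

theorem KK_len {t i : ℕ} (h : t ≤ i) : (blk t).length < KK i := by
  have h1 : (blk t).length ≤ ∑ t ∈ range (i + 1), (blk t).length :=
    single_le_sum (f := fun t => (blk t).length) (fun _ _ => Nat.zero_le _)
      (mem_range.2 (by omega))
  have := Nat.self_le_factorial (i + 1 + ∑ t ∈ range (i + 1), (blk t).length)
  unfold KK
  omega

theorem KK_dvd {m i : ℕ} (h0 : 0 < m) (h : m ≤ i) : m ∣ KK i :=
  Nat.dvd_factorial h0 (by omega)

theorem KK_succ (i : ℕ) : KK i ∣ KK (i + 1) :=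
  Nat.factorial_dvd_factorial (by rw [sum_range_succ _ (i + 1)]; omega)

theorem cc_ge (i : ℕ) : (i + 1) ^ 2 + 3 ≤ cc i := Nat.le_add_right _ _

theorem cc_gt (i : ℕ) : i + 3 < cc i := by have := cc_ge i; nlinarith

theorem bb_ge (i : ℕ) : cc i ≤ bb i := Nat.le_mul_of_pos_right _ (KK_pos i)

theorem getD_le (l : List ℕ) (j : ℕ) : l.getD j 0 ≤ l.sum := by
  by_cases h : j < l.length
  · rw [List.getD_eq_getElem _ _ h]
    exact List.le_sum_of_mem (List.getElem_mem h)
  · rw [List.getD_eq_default _ _ (not_lt.1 h)]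
    exact Nat.zero_le _

theorem blk_lt {t i : ℕ} (h : t ≤ i) (j : ℕ) : (blk t).getD j 0 + 2 < bb i := by
  have h1 : (blk t).sum ≤ ∑ t ∈ range (i + 1), (blk t).sum :=
    single_le_sum (f := fun t => (blk t).sum) (fun _ _ => Nat.zero_le _)
      (mem_range.2 (by omega))
  have h2 := getD_le (blk t) j
  have h3 := bb_ge i
  unfold cc at h3
  omega

theorem NN_gap (i : ℕ) :
    NN i + bb i ^ i * ((i + 1) * ((i + 2) * KK (i + 1) + 1)) ≤ NN (i + 1) :=
  Nat.le_mul_of_pos_left _ (KK_pos _)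

theorem NN_mono : StrictMono NN := by
  refine strictMono_nat_of_lt_succ fun i => lt_of_lt_of_le ?_ (NN_gap i)
  have : 0 < bb i := by have := bb_ge i; have := cc_gt i; omega
  have : 0 < bb i ^ i * ((i + 1) * ((i + 2) * KK (i + 1) + 1)) := by positivity
  omega

theorem KK_NN (i : ℕ) : KK i ∣ NN (i + 1) := (KK_succ i).trans (Dvd.intro _ rfl)

theorem st_ex (n : ℕ) : ∃ i, n < NN (i + 1) := ⟨n, lt_of_lt_of_le (by omega) NN_mono.le_apply⟩

def st (n : ℕ) : ℕ := Nat.find (st_ex n)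

theorem st_eq {i n : ℕ} (h1 : NN i ≤ n) (h2 : n < NN (i + 1)) : st n = i := by
  rw [st, Nat.find_eq_iff]
  exact ⟨h2, fun j hj => not_lt.2 ((NN_mono.monotone (by omega)).trans h1)⟩

theorem st_ge {i n : ℕ} (h1 : NN i ≤ n) : i ≤ st n := by
  have h2 : n < NN (st n + 1) := Nat.find_spec (st_ex n)
  have := NN_mono.lt_iff_lt.1 (h1.trans_lt h2)
  omega

def qq (n : ℕ) : ℕ := bb (st n)

open Classical in
noncomputable def dig (A : Set ℕ) (i p : ℕ) : ℕ :=
  if p % bb i / KK i ≤ i ∧ (blk (p % bb i / KK i)).length ∈ A ∧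
      p % bb i % KK i < (blk (p % bb i / KK i)).length ∧
      p % bb i ^ (blk (p % bb i / KK i)).length = p % bb i
  then (blk (p % bb i / KK i)).getD (p % bb i % KK i) 0 else bb i - 2

noncomputable def EE (A : Set ℕ) (p : ℕ) : ℕ := dig A (st p) p

theorem EE_le (A : Set ℕ) (p : ℕ) : EE A p + 2 ≤ qq p := by
  unfold EE qq dig
  split_ifs with h
  · exact (blk_lt h.1 _).le
  · have := bb_ge (st p); have := cc_gt (st p); omega

theorem qq_tendsto : Tendsto qq atTop atTop := by
  refine tendsto_atTop_atTop.2 fun i => ⟨NN i, fun n hn => ?_⟩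
  have := st_ge hn
  have := bb_ge (st n)
  have := cc_gt (st n)
  unfold qq
  omega

theorem slot {i p j : ℕ} (hp : p < NN (i + 1)) (hj : p % bb i % KK i + j < KK i) :
    p + j < NN (i + 1) ∧ (p + j) % bb i = p % bb i + j ∧
      (p + j) % bb i / KK i = p % bb i / KK i ∧ (p + j) % bb i % KK i = p % bb i % KK i + j := by
  have hK := KK_pos i
  have hKb : KK i ∣ bb i := Dvd.intro_left _ rfl
  have hb : 0 < bb i := by have := bb_ge i; have := cc_gt i; omega
  have key : ∀ x M : ℕ, KK i ∣ M → x < M → x % KK i + j < KK i → x + j < M := by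
    rintro x _ ⟨u, rfl⟩ h1 h2
    have h3 : x / KK i < u := Nat.div_lt_of_lt_mul h1
    have h4 := Nat.div_add_mod x (KK i)
    have h5 : KK i * (x / KK i + 1) ≤ KK i * u := Nat.mul_le_mul_left _ h3
    rw [mul_add, mul_one] at h5
    omega
  have e1 : (p + j) % bb i = p % bb i + j := by
    have := key (p % bb i) (bb i) hKb (Nat.mod_lt _ hb) hj
    rw [← Nat.mod_add_mod, Nat.mod_eq_of_lt this]
  refine ⟨key p _ (KK_NN i) hp (by rwa [Nat.mod_mod_of_dvd _ hKb] at hj), e1, ?_, ?_⟩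
  · rw [e1]
    have h4 := Nat.div_add_mod (p % bb i) (KK i)
    have : p % bb i + j = (p % bb i % KK i + j) + KK i * (p % bb i / KK i) := by omega
    rw [this, Nat.add_mul_div_left _ _ hK, Nat.div_eq_of_lt hj, zero_add]
  · rw [e1, ← Nat.mod_add_mod, Nat.mod_eq_of_lt hj]

theorem occ_of_main (A : Set ℕ) {t i p : ℕ} (ht : t ≤ i) (hA : (blk t).length ∈ A)
    (h1 : NN i ≤ p) (h2 : p < NN (i + 1)) (hm : p % bb i ^ (blk t).length = t * KK i)
    {j : ℕ} (hj : j < (blk t).length) : EE A (p + j) = (blk t).getD j 0 := by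
  have hK := KK_pos i
  have hlen := KK_len ht
  have hc := cc_gt i
  have hlt : t * KK i + KK i ≤ bb i := by unfold bb; nlinarith
  have hdv : bb i ∣ bb i ^ (blk t).length := dvd_pow_self _ (by omega)
  have hle : bb i ≤ bb i ^ (blk t).length := Nat.le_of_dvd (pow_pos (by omega) _) hdv
  have e0 : p % bb i = t * KK i := by
    rw [← Nat.mod_mod_of_dvd p hdv, hm, Nat.mod_eq_of_lt (by omega)]
  have e1 : p % bb i % KK i = 0 := by rw [e0]; simp
  have e2 : p % bb i / KK i = t := by rw [e0]; exact Nat.mul_div_cancel _ hK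
  obtain ⟨s1, s2, s3, s4⟩ := slot (j := j) h2 (by omega)
  unfold EE dig
  rw [st_eq (by omega) s1, s3, s4, e1, e2, zero_add, if_pos]
  refine ⟨ht, hA, hj, ?_⟩
  rw [s2, e0, ← Nat.mod_add_mod, hm, Nat.mod_eq_of_lt (by omega)]

theorem main_of_occ (A : Set ℕ) {t i p : ℕ} (ht : t ≤ i) (h0 : 0 < (blk t).length)
    (h1 : NN i ≤ p) (h2 : p < NN (i + 1))
    (ho : ∀ j < (blk t).length, EE A (p + j) = (blk t).getD j 0) :
    ((blk t).length ∈ A ∧ p % bb i ^ (blk t).length = t * KK i) ∨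
      p % bb i ^ ((blk t).length + 1) < (i + 1) * KK i := by
  have hK := KK_pos i
  obtain ⟨u, hu⟩ : ∃ u, u = p % bb i / KK i := ⟨_, rfl⟩
  obtain ⟨o, hoo⟩ : ∃ o, o = p % bb i % KK i := ⟨_, rfl⟩
  have ho1 : o < KK i := hoo ▸ Nat.mod_lt _ hK
  have hcond : ∀ j < (blk t).length, o + j < KK i →
      (u ≤ i ∧ (blk u).length ∈ A ∧ o + j < (blk u).length ∧
        (p + j) % bb i ^ (blk u).length = (p + j) % bb i) ∧
        (blk u).getD (o + j) 0 = (blk t).getD j 0 := by
    intro j hj hoj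
    obtain ⟨s1, s2, s3, s4⟩ := slot (j := j) h2 (hoo ▸ hoj)
    have := ho j hj
    unfold EE dig at this
    rw [st_eq (by omega) s1, s3, s4, ← hu, ← hoo] at this
    split_ifs at this with h
    · exact ⟨h, this⟩
    · have := blk_lt ht j
      omega
  have c0 := (hcond 0 h0 ho1).1
  have hul := KK_len c0.1
  have hfit : o + (blk t).length ≤ (blk u).length := by
    by_contra hc
    have := (hcond ((blk u).length - o) (by omega) (by omega)).1.2.2.1
    omega
  have hdm := Nat.div_add_mod (p % bb i) (KK i)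
  rw [← hu, ← hoo] at hdm
  have c1 : p % bb i ^ (blk u).length = p % bb i := c0.2.2.2
  rcases (show (blk t).length ≤ (blk u).length by omega).eq_or_lt with he | hl
  · left
    have o0 : o = 0 := by omega
    have : blk u = blk t := by
      refine List.ext_getElem he.symm fun j hj1 hj2 => ?_
      have := (hcond j hj2 (by omega)).2
      rwa [o0, zero_add, List.getD_eq_getElem _ _ hj1, List.getD_eq_getElem _ _ hj2] at this
    have hut : u = t := by
      have h3 := congrArg Encodable.encode this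
      simpa [blk] using h3
    subst hut
    exact ⟨c0.2.1, by rw [c1, ← hdm, o0, add_zero, mul_comm]⟩
  · right
    have hdv : bb i ^ ((blk t).length + 1) ∣ bb i ^ (blk u).length := pow_dvd_pow _ hl
    rw [← Nat.mod_mod_of_dvd p hdv, c1]
    refine lt_of_le_of_lt (Nat.mod_le _ _) ?_
    have := c0.1
    nlinarith

end Pool.Agent.H.MP_8144ad_nt
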