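import Mathlib
import Pool.Agent.H.MP_8144ad_nt.B

open Filter Topology Finset

namespace Pool.Agent.H.MP_8144ad_nt

noncomputable def ww (k p : ℕ) : ℝ := 1 / ∏ j ∈ range k, (qq (p + j) : ℝ)

theorem ww_bd (k p : ℕ) : 0 ≤ ww k p ∧ ww k p ≤ 1 := by
  have h : (1 : ℝ) ≤ ∏ j ∈ range k, (qq (p + j) : ℝ) := by
    have : 1 ≤ ∏ j ∈ range k, qq (p + j) :=
      one_le_prod' fun j _ => by have := EE_le ∅ (p + j); omega
    exact_mod_cast this
  exact ⟨by unfold ww; positivity, by unfold ww; rw [div_le_one (by linarith)]; exact h⟩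

theorem estW {k m r i n : ℕ} (hr : r < m) (h1 : NN i ≤ n) (h2 : n ≤ NN (i + 1)) :
    |m * (∑ p ∈ Ico (NN i) n with p % m = r, ww k p) - ((n : ℝ) - NN i) / (bb i : ℝ) ^ k|
      ≤ m * (1 + k) := by
  have hb : (1 : ℝ) ≤ bb i := by
    have := bb_ge i; have := cc_gt i
    exact_mod_cast (by omega : 1 ≤ bb i)
  have hbk : (1 : ℝ) ≤ (bb i : ℝ) ^ k := one_le_pow₀ hb
  have hm : (0 : ℝ) < m := by exact_mod_cast (by omega : 0 < m)
  have a1 := cnt (NN i) n m r h1 hr
  obtain ⟨R, hR⟩ : ∃ R : Finset ℕ, R = {p ∈ Ico (NN i) n | p % m = r} := ⟨_, rfl⟩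
  rw [← hR] at a1 ⊢
  have a2 : |∑ p ∈ R, ww k p - #R / (bb i : ℝ) ^ k| ≤ k := by
    have e : ∑ p ∈ R, ww k p - #R / (bb i : ℝ) ^ k = ∑ p ∈ R, (ww k p - 1 / (bb i : ℝ) ^ k) := by
      rw [sum_sub_distrib, sum_const, nsmul_eq_mul, mul_one_div]
    rw [e]
    refine (abs_sum_le_sum_abs _ _).trans ?_
    calc ∑ p ∈ R, |ww k p - 1 / (bb i : ℝ) ^ k|
        ≤ ∑ p ∈ R, if p ∈ Ico (NN (i + 1) - k) (NN (i + 1)) then (1 : ℝ) else 0 := by
          refine sum_le_sum fun p hp => ?_
          rw [hR, mem_filter, mem_Ico] at hp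
          split_ifs with h
          · have := ww_bd k p
            have b1 : 1 / (bb i : ℝ) ^ k ≤ 1 := by rw [div_le_one (by linarith)]; exact hbk
            have b2 : 0 ≤ 1 / (bb i : ℝ) ^ k := by positivity
            rw [abs_le]; constructor <;> linarith [this.1, this.2]
          · rw [mem_Ico] at h
            have : ww k p = 1 / (bb i : ℝ) ^ k := by
              unfold ww
              rw [prod_congr rfl (g := fun _ => (bb i : ℝ)) fun j hj => by
                have := mem_range.1 hj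
                rw [qq, st_eq (i := i) (by omega) (by omega)]]
              simp
            simp [this]
      _ = #(R ∩ Ico (NN (i + 1) - k) (NN (i + 1))) := by
          rw [sum_boole, filter_mem_eq_inter]
      _ ≤ k := by
          have := card_le_card (inter_subset_right (s₁ := R)
            (s₂ := Ico (NN (i + 1) - k) (NN (i + 1))))
          rw [Nat.card_Ico] at this
          exact_mod_cast this.trans (by omega)
  have a3 : |m * (#R / (bb i : ℝ) ^ k) - ((n : ℝ) - NN i) / (bb i : ℝ) ^ k| ≤ m := by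
    have e : m * (#R / (bb i : ℝ) ^ k) - ((n : ℝ) - NN i) / (bb i : ℝ) ^ k
        = m * ((#R : ℝ) - ((n : ℝ) - NN i) / m) / (bb i : ℝ) ^ k := by field_simp
    rw [e, abs_div, abs_mul, abs_of_pos hm, abs_of_pos (by linarith : (0 : ℝ) < (bb i : ℝ) ^ k),
      div_le_iff₀ (by linarith)]
    nlinarith
  have a4 := abs_le.1 a2
  have a5 := abs_le.1 a3
  rw [abs_le]
  constructor <;> nlinarith [a4.1, a4.2, a5.1, a5.2]

open Classical in
theorem estA (A : Set ℕ) {t m r i n : ℕ} (ht : t ≤ i) (h0 : 0 < (blk t).length) (hr : r < m)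
    (hmi : m ≤ i) (h1 : NN i ≤ n) (h2 : n ≤ NN (i + 1)) :
    |(#{p ∈ Ico (NN i) n | p % m = r ∧ ∀ j < (blk t).length, EE A (p + j) = (blk t).getD j 0} : ℝ)
      - (if r = 0 ∧ (blk t).length ∈ A then 1 else 0) *
        (((n : ℝ) - NN i) / (bb i : ℝ) ^ (blk t).length)|
      ≤ 1 + (i + 1) * KK i + ((n : ℝ) - NN i) / (bb i : ℝ) ^ (blk t).length / (i + 1) := by
  have hK := KK_pos i
  have hc := cc_gt i
  have hlt : (i + 1) * KK i ≤ bb i := by unfold bb; nlinarith
  have hb0 : 0 < bb i := by have := bb_ge i; omega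
  have hdv : bb i ∣ bb i ^ (blk t).length := dvd_pow_self _ (by omega)
  have hle : bb i ≤ bb i ^ (blk t).length := Nat.le_of_dvd (pow_pos hb0 _) hdv
  have hle' : bb i ≤ bb i ^ ((blk t).length + 1) :=
    Nat.le_of_dvd (pow_pos hb0 _) (dvd_pow_self _ (by omega))
  have hmK : m ∣ KK i := KK_dvd (by omega) hmi
  have hmod : ∀ p, p % bb i ^ (blk t).length = t * KK i → p % m = 0 := by
    intro p hp
    rw [← Nat.mod_mod_of_dvd p ((hmK.trans (Dvd.intro_left _ rfl)).trans hdv), hp]
    exact Nat.mod_eq_zero_of_dvd (hmK.mul_left _)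
  have a1 := abs_le.1 (cnt (NN i) n (bb i ^ (blk t).length) (t * KK i) h1 (by nlinarith))
  have a2 := cnt2 (NN i) n (bb i ^ ((blk t).length + 1)) ((i + 1) * KK i) h1 (hlt.trans hle')
  push_cast at a1 a2
  obtain ⟨y, hy⟩ : ∃ y, y = ((n : ℝ) - NN i) / (bb i : ℝ) ^ (blk t).length := ⟨_, rfl⟩
  have y0 : 0 ≤ y := by
    have : (NN i : ℝ) ≤ n := by exact_mod_cast h1
    rw [hy]; apply div_nonneg <;> [linarith; positivity]
  have a3 : ((i : ℝ) + 1) * KK i * (((n : ℝ) - NN i) / (bb i : ℝ) ^ ((blk t).length + 1))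
      ≤ y / (i + 1) := by
    have hK' : (0 : ℝ) < KK i := by exact_mod_cast hK
    have hb' : (0 : ℝ) < bb i := by exact_mod_cast hb0
    have e : ((n : ℝ) - NN i) / (bb i : ℝ) ^ ((blk t).length + 1) = y / bb i := by
      rw [hy, pow_succ]; field_simp
    have c1 : ((i : ℝ) + 1) ^ 2 * KK i ≤ bb i := by
      have : (i + 1) ^ 2 * KK i ≤ bb i :=
        Nat.mul_le_mul_right _ (by have := cc_ge i; omega)
      exact_mod_cast this
    rw [e, ← mul_div_assoc, div_le_div_iff₀ hb' (by positivity)]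
    nlinarith
  rw [← hy] at a1 ⊢
  obtain ⟨S, hS⟩ : ∃ S : Finset ℕ, S = {p ∈ Ico (NN i) n | p % m = r ∧
    ∀ j < (blk t).length, EE A (p + j) = (blk t).getD j 0} := ⟨_, rfl⟩
  rw [← hS]
  have hpos : (0 : ℝ) ≤ (i + 1) * KK i := by positivity
  have hy2 : 0 ≤ y / (i + 1) := by positivity
  split_ifs with h
  · have s1 : {p ∈ Ico (NN i) n | p % bb i ^ (blk t).length = t * KK i} ⊆ S := by
      intro p hp
      rw [mem_filter, mem_Ico] at hp
      rw [hS, mem_filter, mem_Ico]
      exact ⟨hp.1, by rw [h.1]; exact hmod p hp.2, fun j hj =>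
        occ_of_main A ht h.2 hp.1.1 (by omega) hp.2 hj⟩
    have s2 : S ⊆ {p ∈ Ico (NN i) n | p % bb i ^ (blk t).length = t * KK i} ∪
        {p ∈ Ico (NN i) n | p % bb i ^ ((blk t).length + 1) < (i + 1) * KK i} := by
      intro p hp
      rw [hS, mem_filter] at hp
      have hp1 := mem_Ico.1 hp.1
      rcases main_of_occ A ht h0 hp1.1 (by omega) hp.2.2 with h3 | h3
      · exact mem_union_left _ (mem_filter.2 ⟨hp.1, h3.2⟩)
      · exact mem_union_right _ (mem_filter.2 ⟨hp.1, h3⟩)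
    have t1 := (Nat.cast_le (α := ℝ)).2 (card_le_card s1)
    have t2 := (Nat.cast_le (α := ℝ)).2 ((card_le_card s2).trans (card_union_le _ _))
    push_cast at t2
    rw [abs_le]
    constructor <;> linarith [a1.1, a1.2]
  · have s2 : S ⊆ {p ∈ Ico (NN i) n | p % bb i ^ ((blk t).length + 1) < (i + 1) * KK i} := by
      intro p hp
      rw [hS, mem_filter] at hp
      have hp1 := mem_Ico.1 hp.1
      rcases main_of_occ A ht h0 hp1.1 (by omega) hp.2.2 with h3 | h3
      · exact absurd ⟨hp.2.1.symm.trans (hmod p h3.2), h3.1⟩ h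
      · exact mem_filter.2 ⟨hp.1, h3⟩
    have t2 := (Nat.cast_le (α := ℝ)).2 (card_le_card s2)
    rw [zero_mul, sub_zero, abs_of_nonneg (Nat.cast_nonneg _)]
    linarith

open Classical in
theorem mainT (A : Set ℕ) (t m r : ℕ) (h0 : 0 < (blk t).length) (hr : r < m) :
    Tendsto (fun n => ∑ p ∈ Ico 1 n with p % m = r, ww (blk t).length p) atTop atTop ∧
    Tendsto (fun n => (#{p ∈ Ico 1 n | p % m = r ∧
        ∀ j < (blk t).length, EE A (p + j) = (blk t).getD j 0} : ℝ) /
      ∑ p ∈ Ico 1 n with p % m = r, ww (blk t).length p) atTop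
      (𝓝 (if r = 0 ∧ (blk t).length ∈ A then m else 0)) := by
  obtain ⟨k, hk⟩ : ∃ k, k = (blk t).length := ⟨_, rfl⟩
  obtain ⟨χ, hχ⟩ : ∃ χ : ℝ, χ = if r = 0 ∧ (blk t).length ∈ A then 1 else 0 := ⟨_, rfl⟩
  have χ0 : 0 ≤ χ ∧ χ ≤ 1 := by rw [hχ]; split_ifs <;> norm_num
  let W : ℕ → ℝ := fun n => ∑ p ∈ Ico 1 n with p % m = r, ww (blk t).length p
  let Cn : ℕ → ℝ := fun n => (#{p ∈ Ico 1 n | p % m = r ∧
        ∀ j < (blk t).length, EE A (p + j) = (blk t).getD j 0} : ℝ)
  have hWd : ∀ a b, 1 ≤ a → a ≤ b →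
      W b - W a = ∑ p ∈ Ico a b with p % m = r, ww (blk t).length p := by
    intro a b ha hab
    simp only [W, sum_filter]
    rw [← sum_Ico_consecutive _ ha hab]; ring
  have hCd : ∀ a b, 1 ≤ a → a ≤ b → Cn b - Cn a = (#{p ∈ Ico a b | p % m = r ∧
        ∀ j < (blk t).length, EE A (p + j) = (blk t).getD j 0} : ℝ) := by
    intro a b ha hab
    simp only [Cn, card_filter]
    rw [← sum_Ico_consecutive _ ha hab]; push_cast; ring
  have hm : (0 : ℝ) < m := by exact_mod_cast (by omega : 0 < m)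
  have hst := stage (fun n => Cn n - χ * m * W n) W NN
    (fun i => 1 + (i + 1) * KK i + 2 * (m * (1 + k))) NN_mono
    (fun a b hab => sum_le_sum_of_subset_of_nonneg
      (filter_subset_filter _ (Ico_subset_Ico_right hab)) fun p _ _ => (ww_bd _ p).1)
    (fun i => by
      have : (0 : ℝ) ≤ (i + 1) * KK i + 2 * (m * (1 + k)) := by positivity
      linarith)
    (fun ε hε => by
      obtain ⟨I, hI⟩ := exists_nat_ge (m * (1 + 2 * (m * (1 + k))) / ε + m * (1 + k) : ℝ)
      filter_upwards [eventually_ge_atTop (I + t + m + k + 1)] with i hi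
      have hN1 : 1 ≤ NN i := le_trans (by omega) (NN_mono.le_apply (x := i))
      have hIi : (I : ℝ) ≤ i := by exact_mod_cast (by omega : I ≤ i)
      have z0 : (0 : ℝ) ≤ m * (1 + k) := by positivity
      obtain ⟨z, hz⟩ : ∃ z : ℝ, z = m * (1 + k) := ⟨_, rfl⟩
      rw [← hz] at hI z0 ⊢
      have hI2 : m * (1 + 2 * z) + z * ε ≤ (i + 1) * ε := by
        have : m * (1 + 2 * z) / ε ≤ i + 1 - z := by linarith
        rw [div_le_iff₀ hε] at this
        linarith
      constructor
      · intro n h1 h2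
        have e1 := abs_le.1 (estW (k := (blk t).length) hr h1 h2)
        have e2 := abs_le.1 (estA A (by omega : t ≤ i) h0 hr (by omega) h1 h2)
        rw [← hWd _ _ hN1 h1, ← hk, ← hz] at e1
        rw [← hCd _ _ hN1 h1, ← hχ, ← hk] at e2
        have w0 : 0 ≤ W n - W (NN i) := by
          rw [hWd _ _ hN1 h1]; exact sum_nonneg fun p _ => (ww_bd _ p).1
        obtain ⟨y, hy⟩ : ∃ y, y = ((n : ℝ) - NN i) / (bb i : ℝ) ^ k := ⟨_, rfl⟩
        rw [← hy] at e1 e2
        obtain ⟨d, hd⟩ : ∃ d, d = W n - W (NN i) := ⟨_, rfl⟩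
        rw [← hd] at e1 w0
        have e3 : y / (i + 1) ≤ ε * d + z := by
          rw [div_le_iff₀ (by positivity)]
          have : m * d ≤ (i + 1) * ε * d := by
            apply mul_le_mul_of_nonneg_right _ w0
            nlinarith [mul_nonneg hm.le z0, mul_nonneg z0 hε.le]
          nlinarith [e1.1, mul_nonneg z0 (Nat.cast_nonneg (α := ℝ) i)]
        have e4 : Cn n - χ * m * W n - (Cn (NN i) - χ * m * W (NN i))
            = (Cn n - Cn (NN i) - χ * y) - χ * (m * d - y) := by rw [hd]; ring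
        have e5 : |χ * (m * d - y)| ≤ z := by
          rw [abs_mul, abs_of_nonneg χ0.1]
          have := abs_le.2 e1
          nlinarith [abs_nonneg (m * d - y), χ0.2]
        have e6 := abs_le.1 e5
        show |Cn n - χ * m * W n - (Cn (NN i) - χ * m * W (NN i))| ≤ _
        rw [e4, ← hd, abs_le]
        constructor <;> linarith [e2.1, e2.2, e6.1, e6.2]
      · have h1 : NN i ≤ NN (i + 1) := NN_mono.monotone (by omega)
        have e1 := abs_le.1 (estW (k := (blk t).length) hr h1 le_rfl)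
        rw [← hWd _ _ hN1 h1, ← hk, ← hz] at e1
        have hb : (1 : ℝ) ≤ bb i := by
          have := bb_ge i; have := cc_gt i
          exact_mod_cast (by omega : 1 ≤ bb i)
        obtain ⟨X, hX⟩ : ∃ X : ℝ, X = (i + 2) * KK (i + 1) + 1 := ⟨_, rfl⟩
        have X1 : 1 ≤ X := by
          have : (0 : ℝ) ≤ (i + 2) * KK (i + 1) := by positivity
          linarith
        have g1 : (i + 1) * X ≤ ((NN (i + 1) : ℝ) - NN i) / (bb i : ℝ) ^ k := by
          have g2 : (NN i : ℝ) + (bb i : ℝ) ^ i * ((i + 1) * X) ≤ NN (i + 1) := by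
            rw [hX]; exact_mod_cast NN_gap i
          have g3 : (bb i : ℝ) ^ k ≤ (bb i : ℝ) ^ i := pow_le_pow_right₀ hb (by omega)
          rw [le_div_iff₀ (by positivity)]
          have : (0 : ℝ) ≤ (i + 1) * X := by positivity
          nlinarith
        obtain ⟨d, hd⟩ : ∃ d, d = W (NN (i + 1)) - W (NN i) := ⟨_, rfl⟩
        rw [← hd] at e1 ⊢
        have g4 : (i + 1) * X - z ≤ m * d := by linarith [e1.1]
        have g5 : m * (X + 2 * z) ≤ m * (ε * d) := by
          have g6 := mul_le_mul_of_nonneg_right hI2 (by linarith : 0 ≤ X)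
          have g7 := mul_le_mul_of_nonneg_left g4 hε.le
          have g8 : z * ε ≤ z * ε * X := le_mul_of_one_le_right (by positivity) X1
          have g9 : m * z ≤ m * z * X := le_mul_of_one_le_right (by positivity) X1
          nlinarith
        have := le_of_mul_le_mul_left g5 hm
        push_cast
        linarith)
  refine ⟨hst.1, ?_⟩
  have h2 := hst.2.add_const (χ * m)
  have e : (if r = 0 ∧ (blk t).length ∈ A then (m : ℝ) else 0) = 0 + χ * m := by
    rw [hχ]; split_ifs <;> simp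
  rw [e]
  refine h2.congr' ?_
  filter_upwards [hst.1.eventually_gt_atTop 0] with n hn
  show (Cn n - χ * m * W n) / W n + χ * m = Cn n / W n
  field_simp
  ring

open Classical in
theorem mainF (A : Set ℕ) (k m r : ℕ) (B : Fin k → ℕ) (h0 : 0 < k) (hr : r < m) :
    Tendsto (fun n => ∑ p ∈ Icc 1 n with p % m = r, 1 / ∏ j ∈ range k, (qq (p + j) : ℝ))
      atTop atTop ∧
    Tendsto (fun n => (#{p ∈ Icc 1 n | p % m = r ∧ ∀ j : Fin k, EE A (p + j) = B j} : ℝ) /
      ∑ p ∈ Icc 1 n with p % m = r, 1 / ∏ j ∈ range k, (qq (p + j) : ℝ)) atTop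
      (𝓝 (if r = 0 ∧ k ∈ A then m else 0)) := by
  have hb : blk (Encodable.encode (List.ofFn B)) = List.ofFn B := Denumerable.ofNat_encode _
  have := mainT A (Encodable.encode (List.ofFn B)) m r (by simpa [hb] using h0) hr
  rw [hb, List.length_ofFn] at this
  refine ⟨this.1.comp (tendsto_add_atTop_nat 1), ?_⟩
  refine (this.2.comp (tendsto_add_atTop_nat 1)).congr fun n => ?_
  have e : ∀ p, (∀ j < k, EE A (p + j) = (List.ofFn B).getD j 0) ↔
      ∀ j : Fin k, EE A (p + j) = B j := by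
    intro p
    constructor
    · intro h j
      rw [h j j.2, List.getD_eq_getElem _ _ (by simp)]
      simp
    · intro h j hj
      rw [List.getD_eq_getElem _ _ (by simpa using hj), h ⟨j, hj⟩]
      simp
  simp only [Function.comp, e]
  rfl

end Pool.Agent.H.MP_8144ad_nt
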